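import Pool.Agent.N206.CG.Stm

/-! Project CG (helper206), leaf SYS (helper78): assembling the system from the model. -/

set_option autoImplicit false

namespace Pool.Agent.N78.CG

open Classical Pool.Agent.N206.CG

variable (L : Loc)

/-- elements of `Am` do not touch the letters before `m` -/
theorem am_apply {m : ℕ} {g : Equiv.Perm (Om L)} (hg : g ∈ Am L m) (w : Om L) {j : ℕ} (hj : j < m) :
    (g w) j = w j := by
  have h := hg j hj w (w j)
  rw [Function.update_eq_self] at h
  rw [h, Function.update_self]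

/-- the root is determined -/
theorem root_apply {n : ℕ} {d : Equiv.Perm (Om L)} {r : Equiv.Perm (L.E n)}
    {f : L.E n → Equiv.Perm (Om L)} (h : MkR L n d r f) (w : Om L) : (d w) n = r (w n) := by
  rw [h w, Function.update_self]

/-- the sections are determined -/
theorem sec_apply {n : ℕ} {d : Equiv.Perm (Om L)} {r : Equiv.Perm (L.E n)}
    {f : L.E n → Equiv.Perm (Om L)} (h : MkR L n d r f) (hf : ∀ x, f x ∈ Am L (n + 1))
    (x : L.E n) (w : Om L) : f x w = Function.update (d (Function.update w n x)) n (w n) := by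
  have h1 := h (Function.update w n x)
  rw [Function.update_self, hf x n (Nat.lt_succ_self n) w x, Function.update_idem] at h1
  rw [h1, Function.update_idem]
  have h2 := am_apply L (hf x) w (Nat.lt_succ_self n)
  conv_rhs => rw [← h2]
  rw [Function.update_eq_self]

theorem root_unique {n : ℕ} {d : Equiv.Perm (Om L)} {r r' : Equiv.Perm (L.E n)}
    {f f' : L.E n → Equiv.Perm (Om L)} (h : MkR L n d r f) (h' : MkR L n d r' f') : r = r' := by
  refine Equiv.ext fun x => ?_
  have h1 := root_apply L h (Function.update (fun m => L.z m) n x)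
  have h2 := root_apply L h' (Function.update (fun m => L.z m) n x)
  rw [Function.update_self] at h1 h2
  rw [← h1, ← h2]

theorem sec_unique {n : ℕ} {d : Equiv.Perm (Om L)} {r r' : Equiv.Perm (L.E n)}
    {f f' : L.E n → Equiv.Perm (Om L)} (h : MkR L n d r f) (h' : MkR L n d r' f')
    (hf : ∀ x, f x ∈ Am L (n + 1)) (hf' : ∀ x, f' x ∈ Am L (n + 1)) (x : L.E n) : f x = f' x := by
  refine Equiv.ext fun w => ?_
  rw [sec_apply L h hf, sec_apply L h' hf']

/-- products -/
theorem mkr_mul {n : ℕ} {d e : Equiv.Perm (Om L)} {r s : Equiv.Perm (L.E n)}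
    {f h : L.E n → Equiv.Perm (Om L)} (hd : MkR L n d r f) (he : MkR L n e s h)
    (hf : ∀ x, f x ∈ Am L (n + 1)) : MkR L n (d * e) (r * s) (fun x => f (s x) * h x) := by
  intro w
  rw [Equiv.Perm.mul_apply, hd (e w), root_apply L he w]
  conv_lhs => rw [he w]
  rw [hf (s (w n)) n (Nat.lt_succ_self n), Function.update_idem]
  rfl

theorem mkr_one (n : ℕ) : MkR L n 1 1 (fun _ => 1) := by
  intro w
  simp

/-- the spinal map: base letter -/
theorem psf_z {n : ℕ} (b : L.B) (w : Om L) (h : w n = L.z n) :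
    psf L n b w = psf L (n + 1) b w := by
  have hp : ∀ j, (n ≤ j ∧ w j ≠ L.z j) ↔ (n + 1 ≤ j ∧ w j ≠ L.z j) := by
    intro j
    constructor
    · rintro ⟨h1, h2⟩
      refine ⟨?_, h2⟩
      rcases Nat.lt_or_ge n j with h3 | h3
      · exact h3
      · obtain rfl : j = n := le_antisymm h3 h1
        exact absurd h h2
    · rintro ⟨h1, h2⟩
      exact ⟨by omega, h2⟩
  have hp' : (fun j => n ≤ j ∧ w j ≠ L.z j) = (fun j => n + 1 ≤ j ∧ w j ≠ L.z j) :=
    funext fun j => propext (hp j)
  unfold psf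
  by_cases h1 : ∃ j, n ≤ j ∧ w j ≠ L.z j
  · have h2 : ∃ j, n + 1 ≤ j ∧ w j ≠ L.z j := by
      obtain ⟨j, hj⟩ := h1
      exact ⟨j, (hp j).1 hj⟩
    rw [dif_pos h1, dif_pos h2]
    have h3 : Nat.find h1 = Nat.find h2 := Nat.find_congr' (by intro j; exact hp j)
    rw [h3]
  · have h2 : ¬ ∃ j, n + 1 ≤ j ∧ w j ≠ L.z j := by
      rintro ⟨j, hj⟩
      exact h1 ⟨j, (hp j).2 hj⟩
    rw [dif_neg h1, dif_neg h2]

theorem find_eq {n : ℕ} (w : Om L) (h : w n ≠ L.z n) (h1 : ∃ j, n ≤ j ∧ w j ≠ L.z j) :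
    Nat.find h1 = n :=
  le_antisymm (Nat.find_min' h1 ⟨le_rfl, h⟩) (Nat.find_spec h1).1

theorem psf_X {n : ℕ} (b : L.B) (w : Om L) (h : w n ≠ L.z n) (hX : w n ∈ L.X n) :
    psf L n b w = Function.update w (n + 1) (L.rho (n + 1) b (w (n + 1))) := by
  have h1 : ∃ j, n ≤ j ∧ w j ≠ L.z j := ⟨n, le_rfl, h⟩
  unfold psf
  rw [dif_pos h1]
  have h2 := find_eq L w h h1
  revert h2
  generalize Nat.find h1 = m
  rintro rfl
  rw [if_pos hX]

theorem psf_o {n : ℕ} (b : L.B) (w : Om L) (h : w n ≠ L.z n) (hX : w n ∉ L.X n) :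
    psf L n b w = w := by
  have h1 : ∃ j, n ≤ j ∧ w j ≠ L.z j := ⟨n, le_rfl, h⟩
  unfold psf
  rw [dif_pos h1]
  have h2 := find_eq L w h h1
  revert h2
  generalize Nat.find h1 = m
  rintro rfl
  rw [if_neg hX]

theorem t_SYS (h1 : S_B1 L) (h2 : S_B2 L) (h3 : S_B3 L) (h4 : S_B4 L) : S_SYS L := by
  obtain ⟨h1a, h1b⟩ := h1
  obtain ⟨h2a, h2b⟩ := h2
  obtain ⟨j, hj, hjb, hjG⟩ := h4
  have h2' : ∀ n (d : Gn L n), ∃ (r : L.P n) (f : L.E n → Gn L (n + 1)),
      MkR L n d.1 r.1 (fun x => (f x).1) := by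
    intro n d
    obtain ⟨r, hr, f, hf, hM⟩ := h2b n d.1 d.2
    exact ⟨⟨r, hr⟩, fun x => ⟨f x, hf x⟩, hM⟩
  choose root sec hMk using h2'
  have hAm : ∀ n (f : L.E n → Gn L (n + 1)) x, (f x).1 ∈ Am L (n + 1) :=
    fun n f x => h2a (n + 1) _ (f x).2
  have uniqR : ∀ n (d : Gn L n) (r : Equiv.Perm (L.E n)) (f : L.E n → Gn L (n + 1)),
      MkR L n d.1 r (fun x => (f x).1) → (root n d).1 = r := fun n d r f h =>
    root_unique L (hMk n d) h
  have uniqS : ∀ n (d : Gn L n) (r : Equiv.Perm (L.E n)) (f : L.E n → Gn L (n + 1)),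
      MkR L n d.1 r (fun x => (f x).1) → ∀ x, sec n d x = f x := fun n d r f h x =>
    Subtype.ext (sec_unique L (hMk n d) h (hAm n _) (hAm n f) x)
  have hmul : ∀ n (d e : Gn L n), MkR L n (d * e).1 ((root n d).1 * (root n e).1)
      (fun x => (sec n d ((root n e).1 x) * sec n e x : Gn L (n + 1)).1) := fun n d e =>
    mkr_mul L (hMk n d) (hMk n e) (hAm n _)
  choose fr hfr using h1a
  choose fs hfs using h1b
  have hfrG : ∀ n r, fr n r ∈ Gn L n := fun n r =>
    Subgroup.subset_closure (Or.inl ⟨r.1, r.2, fun w => hfr n r w⟩)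
  have hfsG : ∀ n b, fs n b ∈ Gn L n := fun n b =>
    Subgroup.subset_closure (Or.inr ⟨b, fun w => hfs n b w⟩)
  let rt : ∀ n, L.P n →* Gn L n := fun n => (fr n).codRestrict (Gn L n) (hfrG n)
  let sp : ∀ n, L.B →* Gn L n := fun n => (fs n).codRestrict (Gn L n) (hfsG n)
  have hrt : ∀ n r w, (rt n r).1 w = Function.update w n (r.1 (w n)) := fun n r w => hfr n r w
  have hsp : ∀ n b w, (sp n b).1 w = psf L n b w := fun n b w => hfs n b w
  have mkrt : ∀ n r, MkR L n (rt n r).1 r.1 (fun _ => ((1 : Gn L (n + 1)).1)) := by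
    intro n r w
    rw [hrt]
    rfl
  have hrho : ∀ n b, L.rho n b ∈ L.P n := by
    intro n b
    rw [← L.rho_range n]
    exact ⟨b, rfl⟩
  have mksp : ∀ n b, MkR L n (sp n b).1 1 (fun x => ((if x = L.z n then sp (n + 1) b else
      if x ∈ L.X n then rt (n + 1) ⟨L.rho (n + 1) b, hrho (n + 1) b⟩ else 1 : Gn L (n + 1)).1)) := by
    intro n b w
    rw [hsp, Equiv.Perm.one_apply]
    beta_reduce
    by_cases hz : w n = L.z n
    · rw [if_pos hz, hsp, psf_z L b w hz]
      have e1 := am_apply L (h2a (n + 1) _ (sp (n + 1) b).2) w (Nat.lt_succ_self n)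
      rw [hsp] at e1
      conv_rhs => rw [← e1]
      rw [Function.update_eq_self]
    · by_cases hX : w n ∈ L.X n
      · rw [if_neg hz, if_pos hX, hrt, psf_X L b w hz hX]
        have e1 : (Function.update w (n + 1) (L.rho (n + 1) b (w (n + 1)))) n = w n :=
          Function.update_of_ne (by omega) _ _
        conv_rhs => rw [← e1]
        rw [Function.update_eq_self]
      · rw [if_neg hz, if_neg hX, psf_o L b w hz hX]
        show w = Function.update w n (w n)
        rw [Function.update_eq_self]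
  -- the map `mkk`
  have h3' : ∀ n (f : L.E n → Gn L (n + 1)) (r : L.P n), ∃ g : Gn L n,
      MkR L n g.1 r.1 (fun x => (f x).1) := by
    intro n f r
    obtain ⟨g, hg, hM⟩ := h3 n r.1 r.2 (fun x => (f x).1) (fun x => (f x).2)
    exact ⟨⟨g, hg⟩, hM⟩
  choose mkk hmkk using h3'
  -- the automorphism `jay`
  have hjm : ∀ n (u : Om L) (y : L.E n), j (Function.update u n y) =
      Function.update (j u) n (L.J n y) := by
    intro n u y
    funext m
    rw [hj]
    by_cases hm : m = n
    · subst hm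
      rw [Function.update_self, Function.update_self]
    · rw [Function.update_of_ne hm, Function.update_of_ne hm, hj]
  let jay : ∀ n, Gn L n ≃* Gn L n := fun n =>
    { toFun := fun d => ⟨j * d.1 * j⁻¹, (hjG n d.1).1 d.2⟩
      invFun := fun d => ⟨j⁻¹ * d.1 * j, (hjG n _).2 (by
        have : j * (j⁻¹ * d.1 * j) * j⁻¹ = d.1 := by group
        rw [this]
        exact d.2)⟩
      left_inv := fun d => Subtype.ext (by
        show j⁻¹ * (j * d.1 * j⁻¹) * j = d.1
        group)
      right_inv := fun d => Subtype.ext (by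
        show j * (j⁻¹ * d.1 * j) * j⁻¹ = d.1
        group)
      map_mul' := fun d e => Subtype.ext (by
        show j * (d.1 * e.1) * j⁻¹ = j * d.1 * j⁻¹ * (j * e.1 * j⁻¹)
        group) }
  have hjay : ∀ n (d : Gn L n), (jay n d).1 = j * d.1 * j⁻¹ := fun n d => rfl
  have mkj : ∀ n (d : Gn L n), MkR L n (jay n d).1 (L.J n * (root n d).1 * (L.J n)⁻¹)
      (fun x => (jay (n + 1) (sec n d ((L.J n)⁻¹ x))).1) := by
    intro n d w
    have e1 : (j⁻¹ w) n = (L.J n)⁻¹ (w n) := by
      rw [Equiv.Perm.eq_inv_iff_eq, ← hj, ← Equiv.Perm.mul_apply, mul_inv_cancel, Equiv.Perm.one_apply]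
    rw [hjay, Equiv.Perm.mul_apply, Equiv.Perm.mul_apply, hMk n d (j⁻¹ w), hjm, e1]
    rfl
  refine ⟨{
    D := fun n => Gn L n
    gD := fun n => inferInstance
    root := fun n => MonoidHom.mk' (fun d => (root n d).1) (fun d e => uniqR n _ _ _ (hmul n d e))
    sec := sec
    mkk := mkk
    rt := rt
    sp := sp
    jay := jay
    root_mem := fun n d => (root n d).2
    sec_mul := fun n d e x => uniqS n _ _ _ (hmul n d e) x
    root_mk := fun n f r => uniqR n _ _ _ (hmkk n f r)
    sec_mk := fun n f r x => uniqS n _ _ _ (hmkk n f r) x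
    ext := ?_
    root_rt := fun n r => uniqR n _ _ _ (mkrt n r)
    sec_rt := fun n r x => uniqS n _ _ _ (mkrt n r) x
    root_sp := fun n b => uniqR n _ _ _ (mksp n b)
    sec_sp_z := fun n b => by rw [uniqS n _ _ _ (mksp n b), if_pos rfl]
    sec_sp_X := fun n b x hx => by
      have hne : x ≠ L.z n := fun h => L.z_not n (h ▸ hx)
      rw [uniqS n _ _ _ (mksp n b), if_neg hne, if_pos hx]
    sec_sp_o := fun n b x hx hx' => by
      rw [uniqS n _ _ _ (mksp n b), if_neg hx, if_neg hx']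
    gen := ?_
    faith := ?_
    root_jay := fun n d => uniqR n _ _ _ (mkj n d)
    sec_jay := fun n d x => by
      rw [uniqS n _ _ _ (mkj n d), ← Equiv.Perm.mul_apply, inv_mul_cancel, Equiv.Perm.one_apply]
    jay_sp := fun n b => ?_ }⟩
  · -- ext
    intro n d e hr hs
    refine Subtype.ext (Equiv.ext fun w => ?_)
    have hr' : (root n d).1 = (root n e).1 := hr
    rw [hMk n d w, hMk n e w, hr']
    beta_reduce
    rw [hs]
  · -- gen
    intro n
    have htop : Subgroup.closure ((fun g : Gn L n => g.1) ⁻¹'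
        ({g | ∃ r ∈ L.P n, ∀ w, g w = Function.update w n (r (w n))} ∪
          {g | ∃ b, ∀ w, g w = psf L n b w})) = ⊤ := Subgroup.closure_closure_coe_preimage
    refine eq_top_iff.2 ((ge_of_eq htop).trans (Subgroup.closure_mono ?_))
    rintro ⟨g, hg⟩ hk
    rcases hk with ⟨r, hr, h⟩ | ⟨b, h⟩
    · left
      exact ⟨⟨r, hr⟩, Subtype.ext (Equiv.ext fun w => by rw [hrt]; exact (h w).symm)⟩
    · right
      exact ⟨b, Subtype.ext (Equiv.ext fun w => by rw [hsp]; exact (h w).symm)⟩
  · -- faith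
    intro K hK n d hd
    have key : ∀ m n i : ℕ, i = n + m → ∀ d ∈ K n, ∀ w : Om L, (d.1 w) i = w i := by
      intro m
      induction m with
      | zero =>
        intro n i hi d hd w
        obtain rfl : i = n := hi
        have h5 : (root i d).1 = 1 := (hK i d hd).1
        rw [root_apply L (hMk i d) w, h5, Equiv.Perm.one_apply]
      | succ m ih =>
        intro n i hi d hd w
        have h5 := (hK n d hd).2 (w n)
        have h6 := ih (n + 1) i (by omega) _ h5 w
        rw [hMk n d w, Function.update_of_ne (by omega)]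
        exact h6
    refine Subtype.ext (Equiv.ext fun w => funext fun i => ?_)
    show (d.1 w) i = w i
    rcases Nat.lt_or_ge i n with hi | hi
    · exact am_apply L (h2a n _ d.2) w hi
    · exact key (i - n) n i (by omega) d hd w
  · -- jay_sp
    refine Subtype.ext (Equiv.ext fun w => ?_)
    rw [hsp, ← hjb n b w, hjay, Equiv.Perm.mul_apply, Equiv.Perm.mul_apply, hsp]

end Pool.Agent.N78.CG
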